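import Mathlib
import Pool.Agent.V1199.Weak
import Pool.Agent.V1199.C0

open Set Filter Topology
open scoped ZeroAtInfty

namespace Pool.Agent.Results.MP_2c23da_an.WeakCompactIndex

/-- The slice index of thickness `𝒯ˢ(X)`. -/
noncomputable def sliceIndex (X : Type) [NormedAddCommGroup X] [NormedSpace ℝ X] : ℝ :=
  sInf {r : ℝ | 0 < r ∧ ∃ x : X, ‖x‖ = 1 ∧ ∃ (f : StrongDual ℝ X) (α : ℝ), ‖f‖ = 1 ∧ 0 < α ∧
    {y : X | ‖y‖ ≤ 1 ∧ 1 - α < f y} ⊆ Metric.closedBall x r}

/-- The weak-star slice index of thickness `𝒯ˢ_{w*}(X*)`. -/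
noncomputable def dualSliceIndex (X : Type) [NormedAddCommGroup X] [NormedSpace ℝ X] : ℝ :=
  sInf {r : ℝ | 0 < r ∧ ∃ g : StrongDual ℝ X, ‖g‖ = 1 ∧ ∃ (x : X) (α : ℝ), ‖x‖ = 1 ∧ 0 < α ∧
    {h : StrongDual ℝ X | ‖h‖ ≤ 1 ∧ 1 - α < h x} ⊆ Metric.closedBall g r}

/-- `T` is weakly compact: the weak closure of the image of the unit ball is weakly compact. -/
def IsWeaklyCompactOp {X : Type} [NormedAddCommGroup X] [NormedSpace ℝ X] (T : X →L[ℝ] X) :
    Prop :=
  IsCompact (closure ((fun x => toWeakSpace ℝ X (T x)) '' Metric.closedBall (0 : X) 1))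

/-- The index `W(X)`. -/
noncomputable def wIndex (X : Type) [NormedAddCommGroup X] [NormedSpace ℝ X] : ℝ :=
  sInf {c : ℝ | ∃ T : X →L[ℝ] X, ‖T‖ = 1 ∧ IsWeaklyCompactOp T ∧
    c = ‖T + ContinuousLinearMap.id ℝ X‖}

/-- The space `ℝ ⊕₁ c₀`. -/
def X : Type := WithLp 1 (ℝ × C₀(ℕ, ℝ))

noncomputable instance : NormedAddCommGroup X :=
  inferInstanceAs (NormedAddCommGroup (WithLp 1 (ℝ × C₀(ℕ, ℝ))))
noncomputable instance : NormedSpace ℝ X :=
  inferInstanceAs (NormedSpace ℝ (WithLp 1 (ℝ × C₀(ℕ, ℝ))))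
instance : CompleteSpace X :=
  inferInstanceAs (CompleteSpace (WithLp 1 (ℝ × C₀(ℕ, ℝ))))

/-- The pair `(a, y)`. -/
noncomputable def mk (a : ℝ) (y : C₀(ℕ, ℝ)) : X := WithLp.toLp 1 (a, y)
/-- First component. -/
noncomputable def p1 (x : X) : ℝ := (show WithLp 1 (ℝ × C₀(ℕ, ℝ)) from x).fst
/-- Second component. -/
noncomputable def p2 (x : X) : C₀(ℕ, ℝ) := (show WithLp 1 (ℝ × C₀(ℕ, ℝ)) from x).snd

theorem norm_eq (x : X) : ‖x‖ = |p1 x| + ‖p2 x‖ :=
  WithLp.prod_norm_eq_of_L1 (α := ℝ) (β := C₀(ℕ, ℝ)) x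

theorem norm_mk (a : ℝ) (y : C₀(ℕ, ℝ)) : ‖mk a y‖ = |a| + ‖y‖ := norm_eq _

theorem p1_mk (a : ℝ) (y : C₀(ℕ, ℝ)) : p1 (mk a y) = a := rfl
theorem p2_mk (a : ℝ) (y : C₀(ℕ, ℝ)) : p2 (mk a y) = y := rfl
theorem p1_sub (x y : X) : p1 (x - y) = p1 x - p1 y := rfl
theorem p2_sub (x y : X) : p2 (x - y) = p2 x - p2 y := rfl
theorem p1_add (x y : X) : p1 (x + y) = p1 x + p1 y := rfl
theorem p2_add (x y : X) : p2 (x + y) = p2 x + p2 y := rfl
theorem p1_smul (c : ℝ) (x : X) : p1 (c • x) = c * p1 x := rfl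
theorem p2_smul (c : ℝ) (x : X) : p2 (c • x) = c • p2 x := rfl
theorem mk_eq (x : X) : mk (p1 x) (p2 x) = x := rfl
theorem mk_add (a b : ℝ) (y z : C₀(ℕ, ℝ)) : mk a y + mk b z = mk (a + b) (y + z) := rfl
theorem smul_mk (c a : ℝ) (y : C₀(ℕ, ℝ)) : c • mk a y = mk (c * a) (c • y) := rfl

/-- The functional `(1, 0)`. -/
noncomputable def F : StrongDual ℝ X :=
  LinearMap.mkContinuous
    { toFun := p1
      map_add' := p1_add
      map_smul' := fun c x => p1_smul c x } 1
    (fun x => by
      rw [one_mul, norm_eq]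
      show |p1 x| ≤ _
      linarith [norm_nonneg (p2 x)])

theorem F_apply (x : X) : F x = p1 x := rfl

theorem F_norm : ‖F‖ = 1 := by
  apply le_antisymm
  · exact LinearMap.mkContinuous_norm_le _ zero_le_one _
  · have h := F.le_opNorm (mk 1 0)
    rw [F_apply, p1_mk, norm_mk, norm_zero] at h
    simpa using h

/-- The functional `(1, δ₀)`. -/
noncomputable def G : StrongDual ℝ X :=
  LinearMap.mkContinuous
    { toFun := fun x => p1 x + p2 x 0
      map_add' := fun x y => by
        rw [p1_add, p2_add, ZeroAtInftyContinuousMap.add_apply]; ring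
      map_smul' := fun c x => by
        rw [p1_smul, p2_smul, ZeroAtInftyContinuousMap.smul_apply]
        simp only [RingHom.id_apply, smul_eq_mul]
        ring } 1
    (fun x => by
      rw [one_mul, norm_eq]
      show |p1 x + p2 x 0| ≤ _
      have h1 := V1199.c0_abs_le (p2 x) 0
      have h2 := abs_add_le (p1 x) (p2 x 0)
      linarith)

theorem G_apply (x : X) : G x = p1 x + p2 x 0 := rfl

theorem G_norm : ‖G‖ = 1 := by
  apply le_antisymm
  · exact LinearMap.mkContinuous_norm_le _ zero_le_one _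
  · have h := G.le_opNorm (mk 1 0)
    rw [G_apply, p1_mk, norm_mk, norm_zero, p2_mk] at h
    simpa using h

theorem sliceIndex_zero : sliceIndex X = 0 := by
  apply le_antisymm
  · apply le_of_forall_pos_le_add
    intro r hr
    rw [zero_add]
    refine csInf_le ⟨0, fun s hs => hs.1.le⟩ ⟨hr, mk 1 0, ?_, F, r / 2, F_norm, half_pos hr, ?_⟩
    · rw [norm_mk]; simp
    · rintro x ⟨hx, hx2⟩
      rw [F_apply] at hx2
      rw [Metric.mem_closedBall, dist_eq_norm, norm_eq, p1_sub, p2_sub, p1_mk, p2_mk, sub_zero]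
      rw [norm_eq] at hx
      have h1 := norm_nonneg (p2 x)
      have h2 := le_abs_self (p1 x)
      have h3 : p1 x ≤ 1 := by linarith
      rw [abs_sub_comm, abs_of_nonneg (by linarith)]
      linarith
  · exact Real.sInf_nonneg (fun s hs => hs.1.le)

theorem dualSliceIndex_zero : dualSliceIndex X = 0 := by
  apply le_antisymm
  · apply le_of_forall_pos_le_add
    intro r hr
    rw [zero_add]
    refine csInf_le ⟨0, fun s hs => hs.1.le⟩
      ⟨hr, G, G_norm, mk (1 / 2) ((1 / 2 : ℝ) • V1199.e 0), r / 4, ?_, by positivity, ?_⟩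
    · rw [norm_mk, norm_smul, V1199.e_norm]
      norm_num
    · rintro h ⟨hh, hh2⟩
      set b : ℝ := h (mk 1 0) with hb
      set c : ℝ := h (mk 0 (V1199.e 0)) with hc
      have hval : h (mk (1 / 2) ((1 / 2 : ℝ) • V1199.e 0)) = b / 2 + c / 2 := by
        have : mk (1 / 2) ((1 / 2 : ℝ) • V1199.e 0) =
            (1 / 2 : ℝ) • mk 1 0 + (1 / 2 : ℝ) • mk 0 (V1199.e 0) := by
          rw [smul_mk, smul_mk, mk_add]
          simp
        rw [this, map_add, map_smul, map_smul, smul_eq_mul, smul_eq_mul]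
        ring
      rw [hval] at hh2
      have hle : ∀ x : X, |h x| ≤ ‖x‖ := by
        intro x
        have := h.le_opNorm x
        rw [Real.norm_eq_abs] at this
        calc |h x| ≤ ‖h‖ * ‖x‖ := this
          _ ≤ 1 * ‖x‖ := by gcongr
          _ = ‖x‖ := one_mul _
      have hb1 : b ≤ 1 := by
        have := hle (mk 1 0)
        rw [norm_mk, norm_zero, abs_one, add_zero] at this
        exact (le_abs_self _).trans this
      have hc1 : c ≤ 1 := by
        have := hle (mk 0 (V1199.e 0))
        rw [norm_mk, V1199.e_norm, abs_zero, zero_add] at this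
        exact (le_abs_self _).trans this
      have hb2 : 1 - r / 2 < b := by linarith
      have hc2 : 1 - r / 2 < c := by linarith
      rw [Metric.mem_closedBall, dist_eq_norm]
      refine ContinuousLinearMap.opNorm_le_bound _ hr.le (fun x => ?_)
      -- split `p2 x`
      set s : ℝ := ‖p2 x‖ with hs
      set y' : C₀(ℕ, ℝ) := p2 x - (p2 x 0) • V1199.e 0 with hy'
      have hy'0 : ∀ k, y' k = if k = 0 then 0 else p2 x k := by
        intro k
        have : y' k = p2 x k - (p2 x 0) * (V1199.e 0) k := rfl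
        rw [this, V1199.e_apply]
        split_ifs with hk
        · rw [hk]; ring
        · ring
      have hs0 : 0 ≤ s := norm_nonneg _
      have hplus : ‖s • V1199.e 0 + y'‖ ≤ s := by
        rw [V1199.c0_norm_le hs0]
        intro k
        have : (s • V1199.e 0 + y') k = s * (V1199.e 0) k + y' k := rfl
        rw [this, V1199.e_apply, hy'0]
        split_ifs with hk
        · rw [mul_one, add_zero, abs_of_nonneg hs0]
        · rw [mul_zero, zero_add]; exact V1199.c0_abs_le _ _
      have hminus : ‖s • V1199.e 0 - y'‖ ≤ s := by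
        rw [V1199.c0_norm_le hs0]
        intro k
        have : (s • V1199.e 0 - y') k = s * (V1199.e 0) k - y' k := rfl
        rw [this, V1199.e_apply, hy'0]
        split_ifs with hk
        · rw [mul_one, sub_zero, abs_of_nonneg hs0]
        · rw [mul_zero, zero_sub, abs_neg]; exact V1199.c0_abs_le _ _
      set d : ℝ := h (mk 0 y') with hd
      have h1 : s * c + d ≤ s := by
        have h3 : h (mk 0 (s • V1199.e 0 + y')) = s * c + d := by
          have : mk 0 (s • V1199.e 0 + y') = s • mk 0 (V1199.e 0) + mk 0 y' := by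
            rw [smul_mk, mk_add]; simp
          rw [this, map_add, map_smul, smul_eq_mul]
        have h4 := hle (mk 0 (s • V1199.e 0 + y'))
        rw [norm_mk, abs_zero, zero_add, h3] at h4
        exact (le_abs_self _).trans (h4.trans hplus)
      have h2 : s * c - d ≤ s := by
        have h3 : h (mk 0 (s • V1199.e 0 - y')) = s * c - d := by
          have : mk 0 (s • V1199.e 0 - y') = s • mk 0 (V1199.e 0) + (-1 : ℝ) • mk 0 y' := by
            rw [smul_mk, smul_mk, mk_add]
            congr 1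
            · simp
            · refine ZeroAtInftyContinuousMap.ext (fun k => ?_)
              show s * V1199.e 0 k - y' k = s * V1199.e 0 k + (-1) * y' k
              ring
          rw [this, map_add, map_smul, map_smul, smul_eq_mul, smul_eq_mul]
          ring
        have h4 := hle (mk 0 (s • V1199.e 0 - y'))
        rw [norm_mk, abs_zero, zero_add, h3] at h4
        exact (le_abs_self _).trans (h4.trans hminus)
      have hd2 : |d| ≤ s * (r / 2) := by
        rw [abs_le]
        constructor <;> nlinarith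
      have hx : h x = p1 x * b + p2 x 0 * c + d := by
        have : x = (p1 x) • mk 1 0 + (p2 x 0) • mk 0 (V1199.e 0) + mk 0 y' := by
          rw [smul_mk, smul_mk, mk_add, mk_add, hy']
          conv_lhs => rw [← mk_eq x]
          congr 1
          · ring
          · simp
        conv_lhs => rw [this]
        rw [map_add, map_add, map_smul, map_smul, smul_eq_mul, smul_eq_mul]
      have hfin : (h - G) x = p1 x * (b - 1) + p2 x 0 * (c - 1) + d := by
        rw [_root_.sub_apply, G_apply, hx]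
        ring
      rw [Real.norm_eq_abs, hfin, norm_eq]
      have e1 : |p1 x * (b - 1)| ≤ |p1 x| * (r / 2) := by
        rw [abs_mul]
        apply mul_le_mul_of_nonneg_left _ (abs_nonneg _)
        rw [abs_le]; constructor <;> linarith
      have e2 : |p2 x 0 * (c - 1)| ≤ s * (r / 2) := by
        rw [abs_mul]
        apply mul_le_mul (V1199.c0_abs_le _ _) _ (abs_nonneg _) hs0
        rw [abs_le]; constructor <;> linarith
      have e3 := abs_add_le (p1 x * (b - 1) + p2 x 0 * (c - 1)) d
      have e4 := abs_add_le (p1 x * (b - 1)) (p2 x 0 * (c - 1))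
      have e5 := abs_nonneg (p1 x)
      nlinarith
  · exact Real.sInf_nonneg (fun s hs => hs.1.le)

/-- Partial sums of the unit vectors of `c₀`. -/
noncomputable def sn (n : ℕ) : C₀(ℕ, ℝ) := ∑ k ∈ Finset.range n, (1 : ℝ) • V1199.e k

theorem sn_apply (n k : ℕ) : sn n k = if k < n then 1 else 0 := by
  have := V1199.c0_sum_apply (Finset.range n) (fun _ => 1) k
  simpa [sn] using this

theorem sn_norm (n : ℕ) : ‖sn n‖ ≤ 1 := by
  rw [V1199.c0_norm_le zero_le_one]
  intro k
  rw [sn_apply]
  split_ifs <;> simp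

/-- A weakly compact operator on `X` is not invertible. -/
theorem not_invertible (T S : X →L[ℝ] X) (hT : IsWeaklyCompactOp T)
    (hST : ∀ x, S (T x) = x) : False := by
  have hmem : ∀ n, toWeakSpace ℝ X (T (mk 0 (sn n))) ∈
      closure ((fun x => toWeakSpace ℝ X (T x)) '' Metric.closedBall (0 : X) 1) := by
    intro n
    apply subset_closure
    refine ⟨mk 0 (sn n), ?_, rfl⟩
    rw [mem_closedBall_zero_iff, norm_mk, abs_zero, zero_add]
    exact sn_norm n
  obtain ⟨w, _, hw⟩ := hT.exists_mapClusterPt (f := atTop)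
    (u := fun n => toWeakSpace ℝ X (T (mk 0 (sn n))))
    (Filter.le_principal_iff.mpr (Filter.mem_map.mpr (Eventually.of_forall hmem)))
  -- coordinate functionals
  have hco : ∀ k : ℕ, p2 (S ((toWeakSpace ℝ X).symm w)) k = 1 := by
    intro k
    let P : StrongDual ℝ X := LinearMap.mkContinuous
      { toFun := fun x => p2 x k
        map_add' := fun x y => by rw [p2_add, ZeroAtInftyContinuousMap.add_apply]
        map_smul' := fun c x => by
          rw [p2_smul, ZeroAtInftyContinuousMap.smul_apply]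
          rfl } 1
      (fun x => by
        rw [one_mul, norm_eq]
        show |p2 x k| ≤ _
        have h1 := V1199.c0_abs_le (p2 x) k
        linarith [abs_nonneg (p1 x)])
    have hP : ∀ x, P x = p2 x k := fun x => rfl
    let g : StrongDual ℝ X := P.comp S
    have hg := V1199.weak_continuous g
    have h1 := MapClusterPt.continuousAt_comp (hg.continuousAt (x := w)) hw
    have h2 : (fun n => g ((toWeakSpace ℝ X).symm (toWeakSpace ℝ X (T (mk 0 (sn n)))))) =ᶠ[atTop]
        fun _ => (1 : ℝ) := by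
      filter_upwards [eventually_gt_atTop k] with n hn
      rw [LinearEquiv.symm_apply_apply]
      show P (S (T (mk 0 (sn n)))) = 1
      rw [hST, hP, p2_mk, sn_apply, if_pos hn]
    have h3 : Tendsto ((fun y : WeakSpace ℝ X => g ((toWeakSpace ℝ X).symm y)) ∘
        fun n => toWeakSpace ℝ X (T (mk 0 (sn n)))) atTop (𝓝 1) := by
      exact tendsto_const_nhds.congr' h2.symm
    have h4 : g ((toWeakSpace ℝ X).symm w) = 1 := by
      by_contra hne
      obtain ⟨u, v, hu, hv, hu1, hv1, huv⟩ := t2_separation hne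
      have h5 := h1.frequently (hu.mem_nhds hu1)
      have h6 := h3.eventually (hv.mem_nhds hv1)
      obtain ⟨n, hn1, hn2⟩ := (h5.and_eventually h6).exists
      exact (Set.disjoint_left.mp huv hn1) hn2
    exact h4
  have h1 := V1199.c0_tendsto (p2 (S ((toWeakSpace ℝ X).symm w)))
  simp only [hco] at h1
  have := tendsto_nhds_unique h1 tendsto_const_nhds
  norm_num at this

/-- The rank one operator `(a, y) ↦ (a, 0)`. -/
noncomputable def R : X →L[ℝ] X := F.smulRight (mk 1 0)

theorem R_norm : ‖R‖ = 1 := by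
  have h : ‖R‖ = ‖F‖ * ‖mk 1 0‖ := ContinuousLinearMap.norm_smulRight_apply F (mk 1 0)
  rw [h, F_norm, norm_mk, norm_zero]
  simp

theorem R_weaklyCompact : IsWeaklyCompactOp R := by
  have hcont : Continuous (fun a : ℝ => toWeakSpace ℝ X (a • mk 1 0)) := by
    have h1 : Continuous (fun a : ℝ => a • mk 1 0) := continuous_id.smul continuous_const
    exact (toWeakSpaceCLM ℝ X).continuous.comp h1
  have hK : IsCompact ((fun a : ℝ => toWeakSpace ℝ X (a • mk 1 0)) '' Icc (-1) 1) :=
    isCompact_Icc.image hcont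
  refine hK.closure_of_subset ?_
  rintro _ ⟨x, hx, rfl⟩
  rw [mem_closedBall_zero_iff] at hx
  refine ⟨p1 x, ?_, rfl⟩
  rw [norm_eq] at hx
  rw [mem_Icc, ← abs_le]
  linarith [norm_nonneg (p2 x)]

theorem one_le_wIndex : 1 ≤ wIndex X := by
  apply le_csInf
  · exact ⟨_, R, R_norm, R_weaklyCompact, rfl⟩
  · rintro c ⟨T, _, hT, rfl⟩
    by_contra hlt
    push Not at hlt
    have h1 : IsUnit (1 - (T + ContinuousLinearMap.id ℝ X)) :=
      (Units.oneSub (T + ContinuousLinearMap.id ℝ X) hlt).isUnit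
    have h2 : (1 : X →L[ℝ] X) - (T + ContinuousLinearMap.id ℝ X) = -T := by
      have : (1 : X →L[ℝ] X) = ContinuousLinearMap.id ℝ X := rfl
      rw [this]
      abel
    rw [h2] at h1
    obtain ⟨u, hu⟩ := h1
    refine not_invertible T (-(↑(u⁻¹) : X →L[ℝ] X)) hT (fun x => ?_)
    have h3 : (↑(u⁻¹) : X →L[ℝ] X) * ↑u = 1 := u.inv_mul
    have h4 : ((↑(u⁻¹) : X →L[ℝ] X) * ↑u) x = (1 : X →L[ℝ] X) x := by rw [h3]
    rw [hu] at h4
    have h5 : ((↑(u⁻¹) : X →L[ℝ] X) * -T) x = (-(↑(u⁻¹) : X →L[ℝ] X)) (T x) := by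
      rw [mul_apply_eq_comp]
      simp
    rw [← h5, h4]
    rfl

/-- There is a Banach space for which both slice indices vanish but `W(X) ≥ 1`. -/
theorem result : ∃ (X : Type) (_ : NormedAddCommGroup X) (_ : NormedSpace ℝ X),
    CompleteSpace X ∧ Nontrivial X ∧
    sliceIndex X = 0 ∧ dualSliceIndex X = 0 ∧ 1 ≤ wIndex X := by
  refine ⟨X, inferInstance, inferInstance, inferInstance, ⟨mk 1 0, 0, ?_⟩, sliceIndex_zero,
    dualSliceIndex_zero, one_le_wIndex⟩
  intro h
  have := norm_mk 1 0
  rw [h] at this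
  simp at this

end Pool.Agent.Results.MP_2c23da_an.WeakCompactIndex
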